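import Pool.Agent.X101.DMP.Final
set_option autoImplicit false

/-! # Saturation numbers for degree monotone paths are at most `2 n + C(k)` -/

namespace Pool.Agent.Results.MP_161132_co.LinearSaturation

/-- The degree of a vertex. -/
noncomputable def deg {V : Type} (G : SimpleGraph V) (v : V) : ℕ := (G.neighborSet v).ncard

/-- `G` has a degree monotone path with `m` vertices: distinct vertices, consecutive ones adjacent,
with nondecreasing or nonincreasing degrees. -/
def HasMonoPath {V : Type} (G : SimpleGraph V) (m : ℕ) : Prop :=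
  ∃ v : Fin m → V, Function.Injective v ∧
    (∀ i j : Fin m, (i : ℕ) + 1 = j → G.Adj (v i) (v j)) ∧
    ((∀ i j : Fin m, (i : ℕ) + 1 = j → deg G (v i) ≤ deg G (v j)) ∨
      (∀ i j : Fin m, (i : ℕ) + 1 = j → deg G (v j) ≤ deg G (v i)))

/-- The largest number of vertices of a degree monotone path. -/
noncomputable def mp {V : Type} (G : SimpleGraph V) : ℕ := sSup {m | HasMonoPath G m}

/-- `k`-saturated graphs: `mp G < k`, and `mp (G + e) ≥ k` for every edge `e` joining two
non-adjacent vertices. -/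
def Saturated {V : Type} (k : ℕ) (G : SimpleGraph V) : Prop :=
  mp G < k ∧ ∀ u w : V, u ≠ w → ¬ G.Adj u w → k ≤ mp (G ⊔ SimpleGraph.edge u w)

/-- The least number of edges of a `k`-saturated graph with `n` vertices. -/
noncomputable def h (n k : ℕ) : ℕ :=
  sInf {e | ∃ G : SimpleGraph (Fin n), Saturated k G ∧ G.edgeSet.ncard = e}

/-- For every `k ≥ 2` there is a constant `C` such that `h(n,k) ≤ 2 n + C` for all large `n` (and
there are `k`-saturated graphs with `n` vertices); consequently `h(n,k) ≤ 3 n` for all large `n`,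
with an absolute constant `3`. -/
theorem result :
    (∀ k : ℕ, 2 ≤ k → ∃ C n₀ : ℕ, ∀ n : ℕ, n₀ ≤ n →
      (∃ G : SimpleGraph (Fin n), Saturated k G) ∧ h n k ≤ 2 * n + C) ∧
    ∃ c : ℕ, ∀ k : ℕ, 2 ≤ k → ∃ n₀ : ℕ, ∀ n : ℕ, n₀ ≤ n → h n k ≤ c * n := by
  have key : ∀ k : ℕ, 2 ≤ k → ∃ C n₀ : ℕ, ∀ n : ℕ, n₀ ≤ n →
      (∃ G : SimpleGraph (Fin n), Saturated k G) ∧ h n k ≤ 2 * n + C := by
    intro k hk
    obtain ⟨C, n₀, hC⟩ := Pool.Agent.X101.DMP.main k hk
    refine ⟨C, n₀, fun n hn => ?_⟩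
    obtain ⟨G, h1, h2⟩ := hC n hn
    have h3 : Saturated k G := h1
    exact ⟨⟨G, h3⟩, le_trans (Nat.sInf_le ⟨G, h3, rfl⟩) h2⟩
  refine ⟨key, 3, fun k hk => ?_⟩
  obtain ⟨C, n₀, hC⟩ := key k hk
  refine ⟨max n₀ C, fun n hn => ?_⟩
  have h1 := (hC n (le_trans (le_max_left _ _) hn)).2
  have h2 : C ≤ n := le_trans (le_max_right _ _) hn
  omega

end Pool.Agent.Results.MP_161132_co.LinearSaturation
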